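import Pool.Agent.W523.BV.NBR

/-! # BV-LIN: the sphere triple system is linear and triangle free -/

set_option autoImplicit false

namespace Pool.Agent.W523.BV

open Pool.Agent.W842.BV Finset

theorem mem_sph {D r : ℕ} {a : Fin D → ℤ} (h : a ∈ sph D r) : ∑ i, a i ^ 2 = (r : ℤ) :=
  (Finset.mem_filter.1 h).2

theorem sph_abs {D r R : ℕ} (hr : r ≤ R ^ 2) {a : Fin D → ℤ} (h : a ∈ sph D r) (i : Fin D) :
    |a i| ≤ R := by
  have h1 := mem_sph h
  have h2 : a i ^ 2 ≤ ∑ i, a i ^ 2 :=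
    Finset.single_le_sum (f := fun i => a i ^ 2) (fun j _ => sq_nonneg _) (Finset.mem_univ i)
  have h3 : a i ^ 2 ≤ (R : ℤ) ^ 2 := by
    rw [h1] at h2
    exact h2.trans (by exact_mod_cast hr)
  have h4 : |a i| ≤ |(R : ℤ)| := sq_le_sq.1 h3
  rwa [abs_of_nonneg (Int.natCast_nonneg R)] at h4

theorem eq_of_cast {M : ℕ} {a b : ℤ} (h : (a : ZMod M) = b) (h1 : |b - a| < M) : a = b := by
  rw [ZMod.intCast_eq_intCast_iff_dvd_sub] at h
  have := Int.eq_zero_of_abs_lt_dvd h h1
  linarith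

theorem sph_eqN {D N r R : ℕ} (hr : r ≤ R ^ 2) (hR : 4 * R < N) {a b : Fin D → ℤ}
    (ha : a ∈ sph D r) (hb : b ∈ sph D r) (h : ∀ i, (a i : ZMod N) = b i) : a = b := by
  funext i
  refine eq_of_cast (h i) ?_
  have h1 := abs_le.1 (sph_abs hr ha i)
  have h2 := abs_le.1 (sph_abs hr hb i)
  rw [abs_lt]
  constructor <;> push_cast [← Int.ofNat_lt] at * <;> omega

theorem sph_eq2N {D N r R : ℕ} (hr : r ≤ R ^ 2) (hR : 4 * R < N) {a b : Fin D → ℤ}
    (ha : a ∈ sph D r) (hb : b ∈ sph D r) (h : ∀ i, (a i : ZMod (2 * N)) = b i) : a = b := by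
  refine sph_eqN (N := 2 * N) hr (by omega) ha hb h

/-- strict convexity -/
theorem convex {D r : ℕ} {a b c : Fin D → ℤ} (ha : a ∈ sph D r) (hb : b ∈ sph D r)
    (hc : c ∈ sph D r) (h : ∀ i, 2 * a i = b i + c i) : a = b := by
  have h1 := mem_sph ha
  have h2 := mem_sph hb
  have h3 := mem_sph hc
  have h4 : ∑ i, (b i - c i) ^ 2 = 0 := by
    have : ∀ i, (b i - c i) ^ 2 = 2 * b i ^ 2 + 2 * c i ^ 2 - 4 * a i ^ 2 := by
      intro i
      have := h i
      have h5 : c i = 2 * a i - b i := by linarith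
      rw [h5]; ring
    simp only [this, Finset.sum_sub_distrib, Finset.sum_add_distrib, ← Finset.mul_sum, h1, h2, h3]
    ring
  have h5 := (Finset.sum_eq_zero_iff_of_nonneg (fun i _ => sq_nonneg (b i - c i))).1 h4
  funext i
  have h6 := h5 i (Finset.mem_univ i)
  have h7 : b i - c i = 0 := pow_eq_zero_iff (two_ne_zero) |>.1 h6
  have := h i
  linarith

section
variable {D N r R : ℕ} [NeZero N]

theorem tri_pair (hD : S_DBL) (hr : r ≤ R ^ 2) (hR : 4 * R < N) {u v : Fin D → ZMod N}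
    {a b : Fin D → ℤ} (ha : a ∈ sph D r) (hb : b ∈ sph D r) {x y : Vt D N} (hxy : x ≠ y)
    (hx1 : x ∈ tri u a) (hx2 : x ∈ tri v b) (hy1 : y ∈ tri u a) (hy2 : y ∈ tri v b) :
    u = v ∧ a = b := by
  obtain ⟨hD1, -⟩ := hD
  have case12 : ∀ w₁ w₂ : Fin D → ZMod N, w₁ = u → w₁ = v →
      w₂ = (fun i => u i + (a i : ZMod N)) → w₂ = (fun i => v i + (b i : ZMod N)) →
      u = v ∧ a = b := by
    intro w₁ w₂ h1 h2 h3 h4
    have huv : u = v := h1.symm.trans h2
    subst huv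
    refine ⟨rfl, sph_eqN hr hR ha hb fun i => ?_⟩
    have := congrFun (h3.symm.trans h4) i
    exact add_left_cancel this
  have case13 : ∀ (w₁ : Fin D → ZMod N) (w₂ : Fin D → ZMod (2 * N)), w₁ = u → w₁ = v →
      w₂ = (fun i => dbl (u i) + (a i : ZMod (2 * N))) →
      w₂ = (fun i => dbl (v i) + (b i : ZMod (2 * N))) →
      u = v ∧ a = b := by
    intro w₁ w₂ h1 h2 h3 h4
    have huv : u = v := h1.symm.trans h2
    subst huv
    refine ⟨rfl, sph_eq2N hr hR ha hb fun i => ?_⟩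
    have := congrFun (h3.symm.trans h4) i
    exact add_left_cancel this
  have case23 : ∀ (w₁ : Fin D → ZMod N) (w₂ : Fin D → ZMod (2 * N)),
      w₁ = (fun i => u i + (a i : ZMod N)) → w₁ = (fun i => v i + (b i : ZMod N)) →
      w₂ = (fun i => dbl (u i) + (a i : ZMod (2 * N))) →
      w₂ = (fun i => dbl (v i) + (b i : ZMod (2 * N))) →
      u = v ∧ a = b := by
    intro w₁ w₂ h1 h2 h3 h4
    have hab : a = b := by
      refine sph_eq2N hr hR ha hb fun i => ?_
      have e1 := congrFun (h3.symm.trans h4) i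
      have e2 := hD1 N (u i) (a i)
      have e3 := hD1 N (v i) (b i)
      have e4 := congrFun (h1.symm.trans h2) i
      rw [e4, e3] at e2
      linear_combination -e1 - e2
    subst hab
    refine ⟨?_, rfl⟩
    funext i
    have := congrFun (h1.symm.trans h2) i
    exact add_right_cancel this
  rcases x with (x | x) | x <;> rcases y with (y | y) | y <;>
    simp only [mem_tri1, mem_tri2, mem_tri3] at hx1 hx2 hy1 hy2
  · exact absurd (by rw [hx1, hy1]) hxy
  · exact case12 x y hx1 hx2 hy1 hy2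
  · exact case13 x y hx1 hx2 hy1 hy2
  · exact case12 y x hy1 hy2 hx1 hx2
  · exact absurd (by rw [hx1, hy1]) hxy
  · exact case23 x y hx1 hx2 hy1 hy2
  · exact case13 y x hy1 hy2 hx1 hx2
  · exact case23 y x hy1 hy2 hx1 hx2
  · exact absurd (by rw [hx1, hy1]) hxy

theorem tri_core (hD : S_DBL) (hr : r ≤ R ^ 2) (hR : 4 * R < N)
    {uA uB uC : Fin D → ZMod N} {aA aB aC : Fin D → ℤ} (hA : aA ∈ sph D r) (hB : aB ∈ sph D r)
    (hC : aC ∈ sph D r) {u w : Fin D → ZMod N} {y : Fin D → ZMod (2 * N)}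
    (h1A : u = uA) (h1B : u = uB)
    (h2A : w = fun i => uA i + (aA i : ZMod N)) (h2C : w = fun i => uC i + (aC i : ZMod N))
    (h3B : y = fun i => dbl (uB i) + (aB i : ZMod (2 * N)))
    (h3C : y = fun i => dbl (uC i) + (aC i : ZMod (2 * N))) :
    (tri uA aA : Finset (Vt D N)) = tri uB aB := by
  obtain ⟨hD1, -⟩ := hD
  have huv : uA = uB := h1A.symm.trans h1B
  subst huv
  have hab : aA = aB := by
    refine convex hA hB hC fun i => ?_
    have e1 := congrFun (h3B.symm.trans h3C) i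
    have e2 := hD1 N (uA i) (aA i)
    have e3 := hD1 N (uC i) (aC i)
    have e4 := congrFun (h2A.symm.trans h2C) i
    rw [e4, e3] at e2
    have e5 : ((2 * aA i : ℤ) : ZMod (2 * N)) = ((aB i + aC i : ℤ) : ZMod (2 * N)) := by
      push_cast
      linear_combination -e1 - e2
    refine eq_of_cast e5 ?_
    have b1 := abs_le.1 (sph_abs hr hA i)
    have b2 := abs_le.1 (sph_abs hr hB i)
    have b3 := abs_le.1 (sph_abs hr hC i)
    rw [abs_lt]
    push_cast
    constructor <;> omega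
  rw [hab]

end

theorem t_LIN : Pool.Agent.W842.BV.S_LIN := by
  intro hD D N r R _ hD1 hr hR
  have hmem : ∀ e ∈ HS D N r, ∃ u : Fin D → ZMod N, ∃ a ∈ sph D r, e = tri u a := by
    intro e he
    obtain ⟨p, hp, rfl⟩ := Finset.mem_image.1 he
    exact ⟨p.1, p.2, (Finset.mem_product.1 hp).2, rfl⟩
  refine ⟨?_, ?_, ?_, ?_⟩
  · intro e he
    obtain ⟨u, a, ha, rfl⟩ := hmem e he
    rw [tri, Finset.card_eq_three]
    exact ⟨_, _, _, by simp, by simp, by simp, rfl⟩
  · unfold HS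
    rw [Finset.card_image_of_injOn, Finset.card_product]
    · congr 1
      rw [Finset.card_univ, Fintype.card_fun, ZMod.card, Fintype.card_fin]
    · rintro ⟨u, a⟩ h1 ⟨v, b⟩ h2 h
      have ha : a ∈ sph D r := (Finset.mem_product.1 (Finset.mem_coe.1 h1)).2
      have hb : b ∈ sph D r := (Finset.mem_product.1 (Finset.mem_coe.1 h2)).2
      simp only at h
      have e1 : (Sum.inl (Sum.inl u) : Vt D N) ∈ tri u a := (mem_tri1 u a u).2 rfl
      have e2 : (Sum.inl (Sum.inr (fun i => u i + (a i : ZMod N))) : Vt D N) ∈ tri u a :=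
        (mem_tri2 u a _).2 rfl
      have e3 := e1
      have e4 := e2
      rw [h] at e3 e4
      have := tri_pair hD hr hR ha hb (by simp) e1 e3 e2 e4
      rw [this.1, this.2]
  · intro e he f hf hef
    by_contra hlt
    push Not at hlt
    obtain ⟨x, hx, y, hy, hxy⟩ := Finset.one_lt_card.1 hlt
    obtain ⟨u, a, ha, rfl⟩ := hmem e he
    obtain ⟨v, b, hb, rfl⟩ := hmem f hf
    rw [Finset.mem_inter] at hx hy
    have := tri_pair hD hr hR ha hb hxy hx.1 hx.2 hy.1 hy.2
    exact hef (by rw [this.1, this.2])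
  · intro e he f hf g hg hef hfg heg x y z hxe hxf hyf hyg hze hzg hxy hyz hxz
    obtain ⟨u₁, a₁, h₁, rfl⟩ := hmem e he
    obtain ⟨u₂, a₂, h₂, rfl⟩ := hmem f hf
    obtain ⟨u₃, a₃, h₃, rfl⟩ := hmem g hg
    rcases x with (x | x) | x <;> rcases y with (y | y) | y <;> rcases z with (z | z) | z <;>
      simp only [mem_tri1, mem_tri2, mem_tri3] at hxe hxf hyf hyg hze hzg <;>
      first
        | (exfalso; apply hxy; rw [hxf, hyf]; done)
        | (exfalso; apply hyz; rw [hyg, hzg]; done)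
        | (exfalso; apply hxz; rw [hxe, hze]; done)
        | skip
    · exact hef (tri_core hD hr hR h₂ h₁ h₃ hxf hxe hyf hyg hze hzg).symm
    · exact hef (tri_core hD hr hR h₁ h₂ h₃ hxe hxf hze hzg hyf hyg)
    · exact hfg (tri_core hD hr hR h₂ h₃ h₁ hyf hyg hxf hxe hzg hze)
    · exact heg (tri_core hD hr hR h₁ h₃ h₂ hze hzg hxe hxf hyg hyf)
    · exact hfg (tri_core hD hr hR h₃ h₂ h₁ hyg hyf hzg hze hxf hxe).symm
    · exact heg (tri_core hD hr hR h₃ h₁ h₂ hzg hze hyg hyf hxe hxf).symm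

end Pool.Agent.W523.BV
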