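import Pool.Agent.W842.BV.Stms

/-! # BV-NBR: neighbours in the sphere triple system -/

set_option autoImplicit false

namespace Pool.Agent.W523.BV

open Pool.Agent.W842.BV Finset

theorem mem_tri1 {D N : ℕ} [NeZero N] (u : Fin D → ZMod N) (a : Fin D → ℤ) (v : Fin D → ZMod N) :
    (Sum.inl (Sum.inl v) : Vt D N) ∈ tri u a ↔ v = u := by
  simp [tri]

theorem mem_tri2 {D N : ℕ} [NeZero N] (u : Fin D → ZMod N) (a : Fin D → ℤ) (v : Fin D → ZMod N) :
    (Sum.inl (Sum.inr v) : Vt D N) ∈ tri u a ↔ v = fun i => u i + (a i : ZMod N) := by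
  simp [tri]

theorem mem_tri3 {D N : ℕ} [NeZero N] (u : Fin D → ZMod N) (a : Fin D → ℤ)
    (v : Fin D → ZMod (2 * N)) :
    (Sum.inr v : Vt D N) ∈ tri u a ↔ v = fun i => dbl (u i) + (a i : ZMod (2 * N)) := by
  simp [tri]

theorem mem_nbr {V : Type} [Fintype V] [DecidableEq V] (H : Finset (Finset V)) (v w : V) :
    w ∈ nbr H v ↔ w ≠ v ∧ ∃ e ∈ H, v ∈ e ∧ w ∈ e := by
  simp [nbr]

theorem mem_nbr_HS {D N r : ℕ} [NeZero N] (v x : Vt D N) :
    x ∈ nbr (HS D N r) v ↔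
      x ≠ v ∧ ∃ u : Fin D → ZMod N, ∃ a ∈ sph D r, v ∈ tri u a ∧ x ∈ tri u a := by
  rw [mem_nbr]
  constructor
  · rintro ⟨h, e, he, h1, h2⟩
    obtain ⟨p, hp, rfl⟩ := Finset.mem_image.1 he
    exact ⟨h, p.1, p.2, (Finset.mem_product.1 hp).2, h1, h2⟩
  · rintro ⟨h, u, a, ha, h1, h2⟩
    exact ⟨h, tri u a, Finset.mem_image.2 ⟨(u, a),
      Finset.mem_product.2 ⟨Finset.mem_univ _, ha⟩, rfl⟩, h1, h2⟩

theorem t_NBR : Pool.Agent.W842.BV.S_NBR := by
  intro hD D N r _ v x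
  obtain ⟨hD1, -⟩ := hD
  rw [mem_nbr_HS]
  rcases v with (v | v) | v <;> rcases x with (x | x) | x <;>
    simp only [Adj, iff_false, not_and, not_exists, mem_tri1, mem_tri2, mem_tri3, UW, UY, WY]
  · rintro h u a - h1 h2
    exact h (by rw [h1, h2])
  · constructor
    · rintro ⟨-, u, a, ha, rfl, h⟩
      exact ⟨a, ha, h⟩
    · rintro ⟨a, ha, h⟩
      exact ⟨by simp, v, a, ha, rfl, h⟩
  · constructor
    · rintro ⟨-, u, a, ha, rfl, h⟩
      exact ⟨a, ha, h⟩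
    · rintro ⟨a, ha, h⟩
      exact ⟨by simp, v, a, ha, rfl, h⟩
  · constructor
    · rintro ⟨-, u, a, ha, h, rfl⟩
      exact ⟨a, ha, h⟩
    · rintro ⟨a, ha, h⟩
      exact ⟨by simp, x, a, ha, h, rfl⟩
  · rintro h u a - h1 h2
    exact h (by rw [h1, h2])
  · constructor
    · rintro ⟨-, u, a, ha, rfl, rfl⟩
      refine ⟨a, ha, ?_⟩
      funext i
      rw [hD1]; ring
    · rintro ⟨a, ha, rfl⟩
      refine ⟨by simp, fun i => v i - (a i : ZMod N), a, ha, ?_, ?_⟩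
      · funext i; ring
      · funext i
        have := hD1 N (v i - (a i : ZMod N)) (a i)
        rw [sub_add_cancel] at this
        rw [this]; ring
  · constructor
    · rintro ⟨-, u, a, ha, h, rfl⟩
      exact ⟨a, ha, h⟩
    · rintro ⟨a, ha, h⟩
      exact ⟨by simp, x, a, ha, h, rfl⟩
  · constructor
    · rintro ⟨-, u, a, ha, rfl, rfl⟩
      refine ⟨a, ha, ?_⟩
      funext i
      rw [hD1]; ring
    · rintro ⟨a, ha, rfl⟩
      refine ⟨by simp, fun i => x i - (a i : ZMod N), a, ha, ?_, ?_⟩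
      · funext i
        have := hD1 N (x i - (a i : ZMod N)) (a i)
        rw [sub_add_cancel] at this
        rw [this]; ring
      · funext i; ring
  · rintro h u a - h1 h2
    exact h (by rw [h1, h2])

end Pool.Agent.W523.BV
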