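import Pool.Agent.W842.BV.Stms

/-! # BV-VLA: linear algebra -/

set_option autoImplicit false

namespace Pool.Agent.W523.BV

open Pool.Agent.W842.BV

/-- the coefficients of the functional `∑ (γ + μ δ)^2 - r` -/
def vec {D : ℕ} (r μ : ℤ) (γ : Fin D → ℤ) : ℚ × (Fin D → ℚ) × ℚ :=
  ((∑ h, (γ h : ℚ) ^ 2 - r), (fun h => 2 * μ * γ h), (μ : ℚ) ^ 2)

/-- evaluation at `(1, d, ∑ d^2)` -/
def Lin {D : ℕ} (d : Fin D → ℤ) : (ℚ × (Fin D → ℚ) × ℚ) →ₗ[ℚ] ℚ where
  toFun v := v.1 + ∑ h, v.2.1 h * (d h : ℚ) + v.2.2 * ∑ h, (d h : ℚ) ^ 2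
  map_add' x y := by
    simp only [Prod.fst_add, Prod.snd_add, Pi.add_apply, add_mul, Finset.sum_add_distrib]
    ring
  map_smul' a x := by
    simp only [Prod.smul_fst, Prod.smul_snd, Pi.smul_apply, smul_eq_mul, RingHom.id_apply, mul_add,
      Finset.mul_sum, mul_assoc]

theorem Lin_vec {D : ℕ} (r μ : ℤ) (γ d : Fin D → ℤ) :
    Lin d (vec r μ γ) = ((∑ h, (γ h + μ * d h) ^ 2 - r : ℤ) : ℚ) := by
  simp only [Lin, vec, LinearMap.coe_mk, AddHom.coe_mk]
  push_cast
  have : ∀ h, ((γ h : ℚ) + μ * d h) ^ 2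
      = (γ h : ℚ) ^ 2 + 2 * μ * γ h * d h + (μ : ℚ) ^ 2 * (d h : ℚ) ^ 2 := by
    intro h; ring
  simp only [this, Finset.sum_add_distrib, ← Finset.mul_sum]
  ring

theorem t_VLA : Pool.Agent.W842.BV.S_VLA := by
  intro D s r δ m₀ c₀ m c hm0 h0 h1 h2
  have hli : LinearIndependent ℚ
      (fun o : Option (Fin s) => o.elim (vec r m₀ c₀) (fun i => vec r (m i) (c i))) := by
    rw [Fintype.linearIndependent_iff]
    intro g hg
    simp only [Fintype.sum_option, Option.elim] at hg
    have hs : ∀ j : Fin s, g (some j) = 0 := by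
      intro j
      have h3 := congrArg (Lin (δ j)) hg
      rw [map_zero, map_add, map_sum, map_smul, Lin_vec, h0 j] at h3
      rw [Finset.sum_eq_single j] at h3
      · rw [map_smul, Lin_vec] at h3
        simp only [sub_self, Int.cast_zero, smul_eq_mul] at h3
        rw [mul_zero, zero_add] at h3
        rcases mul_eq_zero.1 h3 with h | h
        · exact h
        · exfalso
          have h4 : (∑ h, (c j h + m j * δ j h) ^ 2 - r : ℤ) = 0 := by exact_mod_cast h
          exact h2 j (by linarith)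
      · intro i _ hij
        rw [map_smul, Lin_vec, h1 i j hij]
        simp
      · intro h; exact absurd (Finset.mem_univ j) h
    intro o
    cases o with
    | some j => exact hs j
    | none =>
      simp only [hs, zero_smul, Finset.sum_const_zero, add_zero] at hg
      have h5 := congrArg (fun v : ℚ × (Fin D → ℚ) × ℚ => v.2.2) hg
      simp only [vec, Prod.smul_snd, smul_eq_mul, Prod.snd_zero] at h5
      rcases mul_eq_zero.1 h5 with h | h
      · exact h
      · exfalso
        have : (m₀ : ℚ) = 0 := by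
          exact pow_eq_zero_iff (two_ne_zero) |>.1 h
        exact hm0 (by exact_mod_cast this)
  have h6 := hli.fintype_card_le_finrank
  rw [Fintype.card_option, Fintype.card_fin, Module.finrank_prod, Module.finrank_prod,
    Module.finrank_self, Module.finrank_fin_fun] at h6
  omega

end Pool.Agent.W523.BV
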