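import Pool.Agent.W842.BV.Stms

/-! # BV-DBL: the doubling map -/

set_option autoImplicit false

namespace Pool.Agent.W523.BV

open Pool.Agent.W842.BV

theorem t_DBL : Pool.Agent.W842.BV.S_DBL := by
  refine ⟨?_, ?_⟩
  · intro N _ u a
    unfold dbl
    have h1 : (((u + (a : ZMod N)).val : ℤ) : ZMod N) = ((u.val + a : ℤ) : ZMod N) := by
      push_cast
      rw [ZMod.natCast_zmod_val, ZMod.natCast_zmod_val]
    have h2 := (ZMod.intCast_eq_intCast_iff_dvd_sub _ _ _).1 h1
    have h3 : ((2 * ((u + (a : ZMod N)).val : ℤ) : ℤ) : ZMod (2 * N))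
        = ((2 * (u.val + a) : ℤ) : ZMod (2 * N)) := by
      rw [ZMod.intCast_eq_intCast_iff_dvd_sub]
      obtain ⟨k, hk⟩ := h2
      refine ⟨k, ?_⟩
      push_cast
      have : (2 * ((u.val : ℤ) + a) - 2 * ((u + (a : ZMod N)).val : ℤ))
          = 2 * (((u.val : ℤ) + a) - ((u + (a : ZMod N)).val : ℤ)) := by ring
      rw [this, hk]
      ring
    have h4 : ((2 * (u + (a : ZMod N)).val : ℕ) : ZMod (2 * N))
        = ((2 * ((u + (a : ZMod N)).val : ℤ) : ℤ) : ZMod (2 * N)) := by
      push_cast; ring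
    rw [h4, h3]
    push_cast
    ring
  · intro N _ u v h
    unfold dbl at h
    rw [ZMod.natCast_eq_natCast_iff'] at h
    have hu := ZMod.val_lt u
    have hv := ZMod.val_lt v
    rw [Nat.mod_eq_of_lt (by omega), Nat.mod_eq_of_lt (by omega)] at h
    exact ZMod.val_injective N (by omega)

end Pool.Agent.W523.BV
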